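import Pool.Agent.H67.RZT.UNCN

/-!
# RZT, row SPCN: the completion at a prime which splits completely and is not above `2`
-/

set_option autoImplicit false

namespace Pool.RZT

open Polynomial NumberField Pool.HYP Pool.TOW Pool.AVS Pool.T1 Pool.NF IsDedekindDomain WithZero

namespace SPCNaux

section Val

variable {R : Type} [CommRing R] [IsDedekindDomain R] {K : Type} [Field K] [Algebra R K]
  [IsFractionRing R K] {P : HeightOneSpectrum R} {ϖ : R}

private theorem val_unif (h1 : ϖ ∈ P.asIdeal) (h2 : ϖ ∉ P.asIdeal ^ 2) :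
    P.valuation K (algebraMap R K ϖ) = exp (-1 : ℤ) := by
  rw [P.valuation_of_algebraMap]
  have g1 : P.intValuation ϖ ≤ exp (-((1 : ℕ) : ℤ)) :=
    (P.intValuation_le_pow_iff_mem ϖ 1).2 (by rw [pow_one]; exact h1)
  have g2 : ¬ P.intValuation ϖ ≤ exp (-((2 : ℕ) : ℤ)) := fun h =>
    h2 ((P.intValuation_le_pow_iff_mem ϖ 2).1 h)
  have g0 : P.intValuation ϖ ≠ 0 := by
    intro h
    apply g2
    rw [h]
    exact zero_le'
  rw [← exp_log g0] at g1 g2 ⊢
  rw [exp_le_exp] at g1 g2
  congr 1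
  push_cast at g1 g2
  omega

private theorem div_unif (h1 : ϖ ∈ P.asIdeal) (h2 : ϖ ∉ P.asIdeal ^ 2) {x : K}
    (hx : P.valuation K x < 1) : P.valuation K (x / algebraMap R K ϖ) ≤ 1 := by
  rw [map_div₀, val_unif h1 h2]
  by_cases h0 : P.valuation K x = 0
  · rw [h0, zero_div]; exact zero_le'
  · rw [← exp_log h0] at hx ⊢
    rw [← exp_zero, exp_lt_exp] at hx
    rw [← exp_sub, ← exp_zero, exp_le_exp]
    omega

private theorem mem_vP (x : K) : x ∈ vP K P ↔ P.valuation K x ≤ 1 :=
  Valuation.mem_valuationSubring_iff _ _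

end Val

end SPCNaux

open SPCNaux in
/-- **SPCN.** -/
theorem spcn : SPCNStmt := by
  intro K _ _ P ϖ h2P h1 h2 E _ _ L _ O ι hA hs
  obtain ⟨hc, hw⟩ := hA
  set κ : K →+* L := ι.comp (algebraMap K E) with hκ
  have hd : ∀ z a : L, a ≠ 0 → ∃ x : K, (z - κ x) / a ∈ O := hs L O ι ⟨hc, hw⟩
  have hM : ∀ x : K, κ x ∈ O ↔ P.valuation K x ≤ 1 := by
    intro x
    rw [← SPCNaux.mem_vP, ← hw]
    rfl
  have hϖ0 : algebraMap (𝓞 K) K ϖ ≠ 0 := by
    intro h0
    have := val_unif (K := K) h1 h2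
    rw [h0, map_zero] at this
    exact exp_ne_zero this.symm
  set π : L := κ (algebraMap (𝓞 K) K ϖ) with hπ
  have hπ0 : π ≠ 0 := (map_ne_zero κ).2 hϖ0
  have hm : π ∈ O := by
    rw [hπ, hM]; exact P.valuation_le_one ϖ
  have hi : π⁻¹ ∉ O := by
    rw [hπ, ← map_inv₀, hM, map_inv₀, val_unif h1 h2, ← exp_neg, ← exp_zero, exp_le_exp]
    norm_num
  have h2E : (2 : E) ≠ 0 := by
    have := (map_ne_zero (algebraMap K E)).2 (two_ne_zero (α := K))
    rwa [map_ofNat] at this
  have h2v : P.valuation K (2 : K) = 1 := by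
    have h3 : (2 : K) = algebraMap (𝓞 K) K (2 : 𝓞 K) := (map_ofNat _ _).symm
    rw [h3]
    exact P.valuation_eq_one_iff_notMem.2 h2P
  have h2i : (2 : L)⁻¹ ∈ O := by
    have h3 : (2 : L)⁻¹ = κ (2 : K)⁻¹ := by
      rw [map_inv₀, map_ofNat]
    rw [h3, hM, map_inv₀, h2v, inv_one]
  have hloc : Loc L O π := by
    refine loc_of_cpl h2E hc h2i π hm hi ?_
    intro z hz hzi
    by_cases hz0 : z = 0
    · rw [hz0, zero_div]
      exact zero_mem O
    obtain ⟨x, hx⟩ := hd z (z ^ 2) (pow_ne_zero 2 hz0)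
    set y : L := κ x with hy
    set w : L := (z - y) / z ^ 2 with hw'
    have h1' : y = z * (1 - z * w) := by
      rw [hw']
      field_simp
      ring
    have h3 : 1 - z * w ∈ O := sub_mem (one_mem O) (mul_mem hz hx)
    have h4 : (1 - z * w)⁻¹ ∈ O := by
      by_contra h5
      have hzm : (⟨z, hz⟩ : O) ∈ IsLocalRing.maximalIdeal O := by
        rw [IsLocalRing.mem_maximalIdeal, mem_nonunits_iff]
        rintro ⟨u, hu⟩
        apply hzi
        have h6 := congrArg (Subtype.val) u.mul_inv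
        rw [hu] at h6
        have h7 : z * (((u⁻¹ : Oˣ) : O) : L) = 1 := h6
        rw [inv_eq_of_mul_eq_one_right h7]
        exact SetLike.coe_mem _
      have hum : (⟨1 - z * w, h3⟩ : O) ∈ IsLocalRing.maximalIdeal O := by
        rw [IsLocalRing.mem_maximalIdeal, mem_nonunits_iff]
        rintro ⟨u, hu⟩
        apply h5
        have h6 := congrArg (Subtype.val) u.mul_inv
        rw [hu] at h6
        have h7 : (1 - z * w) * (((u⁻¹ : Oˣ) : O) : L) = 1 := h6
        rw [inv_eq_of_mul_eq_one_right h7]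
        exact SetLike.coe_mem _
      have h8 : (1 : O) ∈ IsLocalRing.maximalIdeal O := by
        have h9 : (1 : O) = ⟨1 - z * w, h3⟩ + ⟨z, hz⟩ * ⟨w, hx⟩ := by
          apply Subtype.ext
          show (1 : L) = (1 - z * w) + z * w
          ring
        rw [h9]
        exact add_mem hum (Ideal.mul_mem_right _ _ hzm)
      exact (Ideal.ne_top_iff_one _).1 (IsLocalRing.maximalIdeal.isMaximal O).ne_top h8
    have hu0 : 1 - z * w ≠ 0 := by
      intro h0
      rw [h0] at h1'
      rw [mul_zero] at h1'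
      have h5 : w = z⁻¹ := by
        rw [hw', h1']
        field_simp
        ring
      exact hzi (h5 ▸ hx)
    have h5 : P.valuation K x ≤ 1 := by
      rw [← hM]
      show y ∈ O
      rw [h1']
      exact mul_mem hz h3
    have h6 : P.valuation K x < 1 := by
      refine lt_of_le_of_ne h5 fun h7 => hzi ?_
      have h8 : z⁻¹ = y⁻¹ * (1 - z * w) := by
        rw [h1']
        field_simp
      rw [h8]
      refine mul_mem ?_ h3
      rw [hy, ← map_inv₀, hM, map_inv₀, h7, inv_one]
    have h7 : y / π ∈ O := by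
      have h8 := (hM _).2 (div_unif h1 h2 h6)
      rw [map_div₀] at h8
      exact h8
    have h8 : z / π = y / π * (1 - z * w)⁻¹ := by
      rw [h1']
      field_simp
    rw [h8]
    exact mul_mem h7 h4
  refine ⟨hloc, fun a => (hM _).2 (P.valuation_le_one a), fun a => ?_,
    ⟨hc.dvr, hc.complete, hc.fin, hd⟩⟩
  rw [← map_div₀, hM]
  constructor
  · intro h
    have e : algebraMap (𝓞 K) K a = (algebraMap (𝓞 K) K a / algebraMap (𝓞 K) K ϖ) * algebraMap (𝓞 K) K ϖ := by
      rw [div_mul_cancel₀ _ hϖ0]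
    have h9 : P.valuation K (algebraMap (𝓞 K) K a) < 1 := by
      rw [e, map_mul, val_unif h1 h2]
      refine lt_of_le_of_lt (mul_le_mul' h le_rfl) ?_
      rw [one_mul, ← exp_zero, exp_lt_exp]
      norm_num
    exact (P.valuation_lt_one_iff_mem a).1 h9
  · intro h
    exact div_unif h1 h2 ((P.valuation_lt_one_iff_mem a).2 h)

end Pool.RZT
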